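import Pool.Agent.H40.Zr10
import Pool.Agent.H40.JzDefs13

set_option autoImplicit false

namespace Pool.Agent.Results.MP_bce22b_lc.Yes

open Pool.Agent.H40.Bspt Pool.Agent.H40.Jz Pool.Agent.H40.Zt

theorem result (M : Type) (E : M → M → Prop) (h : IsZF E) (ℛ : Reals E) (X T' : M)
    (t : IsTop E X T') (c : Compact E X T') (t2 : Pool.Agent.H40.Jz.T2 E X T')
    (ns : ¬ Scattered E X T') (wl : MChoice E (Closed E X T')) (cb : CufBase E T') :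
    ∃ φ : Ex E ℛ.R → Ex E X, Intl E (fun r => (φ r).1) ∧ Function.Injective φ := by
  obtain ⟨σ', s1, s2, s3⟩ := cb
  obtain ⟨σ, _, hσ⟩ := intl_t h s1
  obtain ⟨N, _, nb⟩ := ex_nb h t σ (fun n a => (hσ ⟨n, a⟩).symm ▸ s2 ⟨n, a⟩) fun U x a b =>
    (s3 U x a b).elim fun n d => d.elim fun V e => ⟨n.1, V, n.2, (hσ n).symm ▸ e.1, e.2⟩
  obtain ⟨μ, m1, m2⟩ := wl
  obtain ⟨m, _, hm⟩ := intl_t h m1
  obtain ⟨Z, ns⟩ := not_forall.1 ns
  obtain ⟨z1, ns⟩ := Classical.not_imp.1 ns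
  obtain ⟨z2, z3⟩ := Classical.not_imp.1 ns
  obtain ⟨Q, ch, _, _, q0, q1, q2, q3⟩ := dense_ch h t c t2 nb (Cl E X T' (E · Z))
    (fun _ => And.left) (fun _ => Cl.cl) (z2.imp fun z a => cl_of (z1 z a) a)
    (fun x U a b d => by_contra fun e => by
      obtain ⟨y, f, g⟩ := a.2 U b d
      have k : ∀ y, E y Z → E y U → y = x := fun y f g =>
        by_contra fun i => e ⟨y, g, cl_of (z1 y f) f, i⟩
      exact z3 ⟨x, k y g f ▸ g, U, b, d, k⟩) m fun F a b => (hm ⟨F, a, b⟩).symm ▸ m2 ⟨F, a, b⟩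
  obtain ⟨b, _, hb⟩ := bits ℛ h
  obtain ⟨φ, _, p1, p2⟩ := cantor h t c t2 nb Q ch q0 q1 q2 q3 b
  exact ⟨fun r => ⟨φ r.1, p1 _⟩, intl_of h (W := X) φ fun _ _ => p1 _, fun r s e =>
    hb r s (p2 _ _ (congrArg Subtype.val e))⟩

end Pool.Agent.Results.MP_bce22b_lc.Yes
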